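import Pool.Agent.V5helper33.ZM.Rd

/-!
# MP_3d0d30_nt: one order gives all larger orders; only the orders `k ≤ √(2 log T / log log T)` matter

`M_k(T) = ∫_0^T |ζ(1/2 + it)|^{2k} dt`, `L = log T`; the pair `(k, T)` is good if `M_k(T) ≤ T L^{k²}`,
the inequality of Q2. (The definitions `Z`, `M`, `Good`, `Q2` are those of the starting file
`ReductionsAndLargeValues`.)

(1) If `(j, T)` is good, `2 ≤ j ≤ k` and `1000 j² L² T ≤ L^{jk}`, then `(k, T)` is good.
(2) For every `T > 1000`: if `(j, T)` is good for one `j ≥ √(2 log T / log log T)`, then `(k, T)` is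
good for all `k ≥ j`.
(3) For large `T` the same with `√((1 + ε) log T / log log T)`.
(4) Q2 is equivalent to its part `T > 5 · 10^12`, `2 + 7 / (5 log T) < k ≤ √(2 log T / log log T)`
(and `L^k ≤ 4 (T / 2π)^{1/4} + 1`). For large `T` the inequality for all orders `k ≥ 2` is equivalent
to the inequality for the orders `2 ≤ k ≤ √((1 + ε) log T / log log T)`.
(5) The reason: for all `T ≥ 1000`, `j ≥ 2` and `t ∈ [0, T]`
`|ζ(1/2 + it)|^{2j} ≤ max (1, 1000 j² L² M_j(T))`.

Proof of (5): let `t₀` be the maximum point of `|ζ(1/2 + it)|` in `[0, T]`, `V` the maximum, and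
`F(w) = ζ(1/2 + i (t₀ - σ (1 - cos w) / 16))`, `σ = ± 1` such that `t₀ - σ / 8` is in `[0, T]`. Then
`|F| ≤ V` on the whole real line and `|F| ≤ 5 T` for `|Im w| ≤ 2`. By Hadamard's three lines theorem
`|F(w)| ≤ V exp (|Im w| (L + 3) / 2)`, so `|F'| ≤ e V (L + 3) / 2` on the real line (a local Bernstein
inequality; with the substitution `cos w` it is uniform up to the end points of `[0, T]`) and
`|F(w)| ≥ V (1 - e w (L + 3) / 2)`. The integral of `|F(w)|^{2j} sin w / 16` over `w` is at most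
`M_j(T)`. (1) follows from (5) and the reflection of the starting file: if `(j, T)` is good and
`|ζ| ≤ L^{(j + k) / 2}` then `(k, T)` is good.
-/

set_option autoImplicit false

namespace Pool.Agent.Results.MP_3d0d30_nt.PropagationOfOrders

open Set
open Pool.Agent.Results.MP_3d0d30_nt.ReductionsAndLargeValues (Z M Good Q2)
open Pool.Agent.V5helper33.ZM.Rd

/-- `√(a log T / log log T)` -/
noncomputable def S (a T : ℝ) : ℝ := Real.sqrt (a * Real.log T / Real.log (Real.log T))

lemma two_le {T : ℝ} (hT : 1000 ≤ T) : 2 ≤ S 2 T := by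
  have hl := Pool.Agent.V5helper33.ZM.log_ge hT
  have hll := llog_ge hT
  apply Real.le_sqrt_of_sq_le
  rw [le_div_iff₀ (by linarith)]
  have h := Real.log_le_sub_one_of_pos (x := Real.log T / 2) (by linarith)
  rw [Real.log_div (by linarith) (by norm_num)] at h
  have := Real.log_two_lt_d9
  linarith

/-- **One good order gives all larger orders; the orders that matter.** -/
theorem result :
    (∀ T j k : ℝ, 1000 ≤ T → 2 ≤ j → j ≤ k →
      1000 * j ^ 2 * Real.log T ^ 2 * T ≤ Real.log T ^ (j * k) → Good j T → Good k T) ∧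
    (∀ T j k : ℝ, 1000 < T → S 2 T ≤ j → j ≤ k → Good j T → Good k T) ∧
    (∀ ε : ℝ, 0 < ε → ∃ T₀ : ℝ, ∀ T j k : ℝ, T₀ ≤ T → S (1 + ε) T ≤ j → j ≤ k →
      Good j T → Good k T) ∧
    (Q2 ↔ ∀ k T : ℝ, 5 * 10 ^ 12 < T → 2 + 7 / (5 * Real.log T) < k → k ≤ S 2 T →
      Real.log T ^ k ≤ 4 * (T / (2 * Real.pi)) ^ (1 / 4 : ℝ) + 1 → Good k T) ∧
    (∀ ε : ℝ, 0 < ε → ∃ T₀ : ℝ, ∀ T : ℝ, T₀ ≤ T →
      ((∀ k : ℝ, 2 ≤ k → Good k T) ↔ ∀ k : ℝ, 2 ≤ k → k ≤ S (1 + ε) T → Good k T)) ∧
    (∀ T j t : ℝ, 1000 ≤ T → 2 ≤ j → t ∈ Icc (0:ℝ) T →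
      Z t ^ (2 * j) ≤ max 1 (1000 * j ^ 2 * Real.log T ^ 2 * M j T)) := by
  have h2 : ∀ T j k : ℝ, 1000 < T → S 2 T ≤ j → j ≤ k → Good j T → Good k T := by
    intro T j k hT hj hjk hg
    exact up_two hT.le ((two_le hT.le).trans hj) hj hg hjk
  refine ⟨fun T j k hT hj hjk h hg => prop hT hj hjk h hg, h2, ?_, ?_, ?_,
    fun T j t hT hj ht => max_bound hT hj ht⟩
  · intro ε hε
    obtain ⟨T₀, h⟩ := up_eps hε
    exact ⟨T₀, fun T j k hT hj hjk hg => h T j k hT hj hg hjk⟩
  · have hQ := Pool.Agent.Results.MP_3d0d30_nt.ReductionsAndLargeValues.result.2.2.2.2.2.1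
    rw [hQ]
    constructor
    · intro h k T hT hk _ hW
      exact h k T hk hT hW
    · intro h k T hk hT hW
      rcases le_or_gt k (S 2 T) with h1 | h1
      · exact h k T hT hk h1 hW
      · have hT1 : 1000 < T := by linarith
        obtain ⟨b1, b2, b3⟩ := big hT
        have h4 : 2 + 7 / (5 * Real.log T) < S 2 T := by
          have h5 : 7 / (5 * Real.log T) ≤ 1 / 2 := by
            rw [div_le_div_iff₀ (by linarith) (by norm_num)]
            linarith
          have h6 : (3:ℝ) ≤ S 2 T := by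
            apply Real.le_sqrt_of_sq_le
            rw [le_div_iff₀ (by linarith)]
            linarith
          linarith
        refine h2 T (S 2 T) k hT1 le_rfl h1.le (h (S 2 T) T hT h4 le_rfl ?_)
        refine le_trans ?_ hW
        exact Real.rpow_le_rpow_of_exponent_le (by linarith) h1.le
  · intro ε hε
    obtain ⟨T₁, h⟩ := up_eps hε
    refine ⟨max T₁ 1000, fun T hT => ⟨fun h1 k hk _ => h1 k hk, fun h1 k hk => ?_⟩⟩
    have hT1 : T₁ ≤ T := (le_max_left _ _).trans hT
    have hT2 : 1000 ≤ T := (le_max_right _ _).trans hT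
    rcases le_or_gt k (S (1 + ε) T) with h3 | h3
    · exact h1 k hk h3
    · rcases le_or_gt 2 (S (1 + ε) T) with h4 | h4
      · exact h T _ k hT1 le_rfl (h1 _ h4 le_rfl) h3.le
      · exact h T 2 k hT1 h4.le
          (Pool.Agent.Results.MP_3d0d30_nt.ReductionsAndLargeValues.good_two T hT2) hk

end Pool.Agent.Results.MP_3d0d30_nt.PropagationOfOrders
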