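import Pool.Agent.V5helper33.ZM.Rg

/-!
# MP_3d0d30_nt: Q2 for the large orders is a statement about the maximum of the zeta function

`M_k(T) = ∫_0^T |ζ(1/2 + it)|^{2k} dt`, `L = log T`; the pair `(k, T)` is good if `M_k(T) ≤ T L^{k²}`,
the inequality of Q2. (The definitions `Z`, `M`, `Good`, `Q2` are those of the starting file
`ReductionsAndLargeValues`.)

(1) Let `K` be any function with `K(T) ≥ √(log T / log log T)` for large `T`. Then all pairs with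
`k ≥ C K(T)`, `T ≥ T₀`, are good for some `C`, `T₀`, if and only if
`max_{0 ≤ t ≤ T} |ζ(1/2 + it)| ≤ (log T)^{C K(T)}` for some `C` and all large `T`.
(2) For `κ ≥ 0`: for every `ε > 0` all pairs with `k ≥ (2 κ + ε) log T / log log T`, `T ≥ T₀(ε)`, are
good, if and only if `|ζ(1/2 + it)| ≤ t^{κ + ε}` for every `ε > 0` and `t ≥ t₀(ε)`. `κ = 0`: the part
`k ≥ ε log T / log log T` of Q2 (all `ε > 0`, `T ≥ T₀(ε)`) is EQUIVALENT to the Lindelöf hypothesis;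
`κ = 1 / 6`: the pairs with `k ≥ (1/3 + ε) log T / log log T`, `T ≥ T₀(ε)` are good.
(3) If the pairs with `k = A √(log T / log log T)`, `T` large, are good, then
`|ζ(1/2 + it)| ≤ exp ((A / 2 + 1 / (2 A) + ε) √(log t log log t))` for large `t`; in particular Q2
implies `|ζ(1/2 + it)| ≤ exp ((1 + ε) √(log t log log t))`. Conversely,
`|ζ(1/2 + it)| ≤ exp (c √(log t log log t))` for large `t` implies that the pairs with
`k ≥ 2 c √(log T / log log T)`, `T ≥ T₀`, are good.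

The proof uses `|ζ(1/2 + it)|^{2j} ≤ max (1, 1000 j² L² M_j(T))`, `0 ≤ t ≤ T` (file
`V5helper33/ZM/Mx.lean`).
-/

set_option autoImplicit false

namespace Pool.Agent.Results.MP_3d0d30_nt.RangesAndTheMaximum

open Set Filter
open Pool.Agent.Results.MP_3d0d30_nt.ReductionsAndLargeValues (Z M Good Q2)

/-- `√(log T / log log T)` -/
noncomputable def R (T : ℝ) : ℝ := Real.sqrt (Real.log T / Real.log (Real.log T))

/-- `√(log T log log T)` -/
noncomputable def E (T : ℝ) : ℝ := Real.sqrt (Real.log T * Real.log (Real.log T))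

/-- **Q2 for the large orders is a statement about the maximum of the zeta function.** -/
theorem result :
    -- ranges of orders and the maximum
    (∀ K : ℝ → ℝ, (∀ᶠ T in atTop, R T ≤ K T) →
      ((∃ C T₀ : ℝ, 0 < C ∧ ∀ T k : ℝ, T₀ ≤ T → C * K T ≤ k → Good k T) ↔
        ∃ C T₀ : ℝ, 0 < C ∧ ∀ T t : ℝ, T₀ ≤ T → t ∈ Icc (0:ℝ) T →
          Z t ≤ Real.log T ^ (C * K T))) ∧
    -- the order of growth
    (∀ κ : ℝ, 0 ≤ κ →
      ((∀ ε : ℝ, 0 < ε → ∃ T₀ : ℝ, ∀ T k : ℝ, T₀ ≤ T →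
        (2 * κ + ε) * (Real.log T / Real.log (Real.log T)) ≤ k → Good k T) ↔
      ∀ ε : ℝ, 0 < ε → ∃ t₀ : ℝ, ∀ t : ℝ, t₀ ≤ t → Z t ≤ t ^ (κ + ε))) ∧
    (∀ ε : ℝ, 0 < ε → ∃ T₀ : ℝ, ∀ T k : ℝ, T₀ ≤ T →
      (1 / 3 + ε) * (Real.log T / Real.log (Real.log T)) ≤ k → Good k T) ∧
    -- the constants for the orders of size `√(log T / log log T)`
    (∀ A : ℝ, 0 < A → (∀ᶠ T in atTop, Good (A * R T) T) → ∀ ε : ℝ, 0 < ε → ∃ t₀ : ℝ, ∀ t : ℝ,
      t₀ ≤ t → Z t ≤ Real.exp ((A / 2 + 1 / (2 * A) + ε) * E t)) ∧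
    (Q2 → ∀ ε : ℝ, 0 < ε → ∃ t₀ : ℝ, ∀ t : ℝ, t₀ ≤ t → Z t ≤ Real.exp ((1 + ε) * E t)) ∧
    (∀ c : ℝ, 0 < c → (∃ t₀ : ℝ, ∀ t : ℝ, t₀ ≤ t → Z t ≤ Real.exp (c * E t)) →
      ∃ T₀ : ℝ, ∀ T k : ℝ, T₀ ≤ T → 2 * c * R T ≤ k → Good k T) := by
  have h3 : ∀ A : ℝ, 0 < A → (∀ᶠ T in atTop, Good (A * R T) T) → ∀ ε : ℝ, 0 < ε →
      ∃ t₀ : ℝ, ∀ t : ℝ, t₀ ≤ t → Z t ≤ Real.exp ((A / 2 + 1 / (2 * A) + ε) * E t) :=
    fun A hA h ε hε => Pool.Agent.V5helper33.ZM.Rd.sharp hA h hε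
  refine ⟨fun K hK => Pool.Agent.V5helper33.ZM.Rd.ranges K hK,
    fun κ hκ => Pool.Agent.V5helper33.ZM.Rd.exponents hκ, ?_, h3, ?_,
    fun c hc h => Pool.Agent.V5helper33.ZM.Rd.sharp' hc h⟩
  · have h := (Pool.Agent.V5helper33.ZM.Rd.exponents (κ := 1 / 6) (by norm_num)).2
      (fun ε hε => by
        obtain ⟨t₀, _, h⟩ :=
          Pool.Agent.Results.MP_3d0d30_nt.ReductionsAndLargeValues.weyl ε hε
        exact ⟨t₀, h⟩)
    intro ε hε
    obtain ⟨T₀, h1⟩ := h ε hε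
    refine ⟨T₀, fun T k hT hk => h1 T k hT ?_⟩
    have e : 2 * (1 / 6 : ℝ) + ε = 1 / 3 + ε := by ring
    rwa [e]
  · intro hQ ε hε
    have h := h3 1 one_pos (by
      filter_upwards [Pool.Agent.V5helper33.ZM.Rd.ev_ll (c := 1 / 4) (by norm_num),
        eventually_gt_atTop 1000] with T h1 h2
      refine hQ _ T ?_ h2
      rw [one_mul]
      apply Real.le_sqrt_of_sq_le
      rw [le_div_iff₀ (by linarith [Pool.Agent.V5helper33.ZM.Rd.llog_ge h2.le])]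
      linarith) ε hε
    obtain ⟨t₀, h1⟩ := h
    refine ⟨t₀, fun t ht => ?_⟩
    have e : (1 / 2 + 1 / (2 * 1) + ε : ℝ) = 1 + ε := by norm_num
    have h2 := h1 t ht
    rwa [e] at h2

end Pool.Agent.Results.MP_3d0d30_nt.RangesAndTheMaximum
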