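import Pool.Agent.V5helper23.ZW.Win
import Pool.Agent.V5helper33.ZM.Rd

/-!
# MP_3d0d30_nt: the inequality of Q2 in almost all short windows of the critical line

`W_k(t, H)` is the average of `|ζ(1/2 + iu)|^{2k}` over `t ≤ u ≤ t + H`, `L = log T`, `T ≥ 1000`.

(1) For every `G > 0` there is a set `E` of measure at most `4700 T / G` such that for ALL
`t ∈ [0, T] \ E`, all real `k ≥ 2` and all `1 ≤ H ≤ T`
`W_k(t, H) ≤ G^{k/2} (H L)^{(k-2)/2} L^{2k}`, which is at most `L^{k²}` if `G^{k/(k-2)} H L ≤ L^{2k}`.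
(2) For every `ε > 0`: for all `t ∈ [0, T]` outside a set of measure at most `4700 T L^{-ε²}` the inequality
of Q2 for the window, `W_k(t, H) ≤ L^{k²}`, holds for all `k ≥ 2 + ε` and all windows of length
`1 ≤ H ≤ L^{(2-ε)k-1}`, `H ≤ T`.
(3) In general: if `M_j(3T) ≤ A T L^{j²}` then outside a set of measure at most `216 (2j + 1) A T / G`, for all
`k ≥ j`, `W_k(t, H) ≤ G^{k/j} (H L)^{(k-j)/j} L^{jk}`, which is at most `L^{k²}` if `G^{k/(k-j)} H L ≤ L^{jk}`.

Proof. Let `|ζ(1/2 + ic)| ≥ 1`, let `x` be a maximum point of `|ζ(1/2 + i(c + x))| exp (-2 L x²)`; then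
`|x| ≤ 1`, and Hadamard's three lines theorem (the lemma of `V5helper33.ZM.Bern`) for
`ζ(1/2 + i(c + x + w)) exp (-2 L (x + w)²)` in `|Im w| ≤ 1/4` shows that
`|ζ(1/2 + i(c + x + w))| ≥ |ζ(1/2 + ic)| (1 - 18 L w)` for `w ≥ 0`. So
`|ζ(1/2 + ic)|^p ≤ 18 (p + 1) L ∫ |ζ|^p` over `[c - 1, c + 2]`: in a window of length `H` the maximum is
controlled by the moment of order `p = 2j` over the window. The exceptional set is that of the maximal
inequality of Hardy and Littlewood (unit intervals), so it does not depend on `H` and `k`. For `j = 2` the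
fourth moment is in the starting file `ReductionsAndLargeValues`.
-/

set_option autoImplicit false

namespace Pool.Agent.Results.MP_3d0d30_nt.WindowsOfAllOrders

open Set MeasureTheory
open Pool.Agent.Results.MP_3d0d30_nt.ReductionsAndLargeValues (Z M fourth)
open Pool.Agent.V5helper33.ZM (log_ge)

/-- the average of `|ζ(1/2 + iu)|^{2k}` over `t ≤ u ≤ t + H` -/
noncomputable def W (k t H : ℝ) : ℝ := (∫ u in t..(t + H), Z u ^ (2 * k)) / H

/-- `P t` holds for all `t ∈ [0, T]` outside a measurable set of measure at most `m` -/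
def AllBut (T m : ℝ) (P : ℝ → Prop) : Prop :=
  ∃ E : Set ℝ, MeasurableSet E ∧ volume E ≤ ENNReal.ofReal m ∧ ∀ t ∈ Icc (0:ℝ) T, t ∉ E → P t

lemma part1 {T j lam : ℝ} (hT : 1000 ≤ T) (hj : 1 / 2 ≤ j) (hl : 0 < lam) :
    AllBut T (2 * M j (3 * T) / lam) (fun t => ∀ H k : ℝ, 1 ≤ H → H ≤ T → j ≤ k →
      W k t H ≤ 6 * lam * max 1 (108 * (2 * j + 1) * Real.log T * H * lam) ^ ((k - j) / j)) := by
  obtain ⟨E, h1, h2, h3⟩ := Pool.Agent.V5helper23.ZW.exc (p := 2 * j) hT (by linarith) hl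
  refine ⟨E, h1, h2, ?_⟩
  intro t ht htE H k hH1 hHT hjk
  have h4 := Pool.Agent.V5helper23.ZW.win (q := 2 * k) hT (by linarith) (by linarith) hl ht hH1 hHT
    (h3 t ⟨ht, htE⟩ H hH1 hHT)
  have e : (2 * k - 2 * j) / (2 * j) = (k - j) / j := by
    have : j ≠ 0 := by linarith
    field_simp
  rw [e] at h4
  unfold W
  rw [div_le_iff₀ (by linarith)]
  exact h4.trans (le_of_eq (mul_comm _ _))

lemma part2 {T j A G : ℝ} (hT : 1000 ≤ T) (hj : 1 / 2 ≤ j) (hA : 1 ≤ A) (hG : 0 < G)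
    (hM : M j (3 * T) ≤ A * T * Real.log T ^ (j ^ 2)) :
    AllBut T (216 * (2 * j + 1) * A * T / G) (fun t => ∀ H k : ℝ, 1 ≤ H → H ≤ T → j ≤ k →
      W k t H ≤ G ^ (k / j) * (H * Real.log T) ^ ((k - j) / j) * Real.log T ^ (j * k) ∧
      (j < k → G ^ (k / (k - j)) * (H * Real.log T) ≤ Real.log T ^ (j * k) →
        W k t H ≤ Real.log T ^ (k ^ 2))) := by
  have hL0 : 69 / 10 ≤ Real.log T := log_ge hT
  set L := Real.log T with hL
  have hLp : 0 < L := by linarith
  have hj0 : 0 < j := by linarith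
  have hT0 : 0 < T := by linarith
  rcases lt_or_ge G 1 with hG1 | hG1
  · refine ⟨Icc 0 T, measurableSet_Icc, ?_, fun t ht htE => absurd ht htE⟩
    rw [Real.volume_Icc, sub_zero]
    apply ENNReal.ofReal_le_ofReal
    rw [le_div_iff₀ hG]
    have h1 : T * G ≤ T * 1 := by gcongr
    have h2 : 1 ≤ 216 * (2 * j + 1) * A := by nlinarith
    nlinarith
  · set X := G * L ^ (j ^ 2) with hX
    have hLj : 1 ≤ L ^ (j ^ 2) := Real.one_le_rpow (by linarith) (by positivity)
    have hX1 : 1 ≤ X := by rw [hX]; nlinarith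
    set lam := X / (108 * (2 * j + 1)) with hlam
    have hl : 0 < lam := by positivity
    obtain ⟨E, h1, h2, h3⟩ := part1 hT hj hl
    refine ⟨E, h1, h2.trans ?_, ?_⟩
    · apply ENNReal.ofReal_le_ofReal
      rw [hlam, div_div_eq_mul_div, hX]
      rw [div_le_div_iff₀ (by positivity) hG]
      have : 2 * M j (3 * T) * (108 * (2 * j + 1)) ≤ 2 * (A * T * L ^ (j ^ 2)) * (108 * (2 * j + 1)) := by
        gcongr
      nlinarith [mul_le_mul_of_nonneg_right this hG.le]
    · intro t ht htE H k hH1 hHT hjk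
      have h4 := h3 t ht htE H k hH1 hHT hjk
      set s := (k - j) / j with hs
      have hs0 : 0 ≤ s := div_nonneg (by linarith) hj0.le
      have hs1 : s + 1 = k / j := by rw [hs]; field_simp; ring
      have hQ : 108 * (2 * j + 1) * L * H * lam = (H * L) * X := by
        rw [hlam]; field_simp
      have hH0 : 0 < H := by linarith
      have hY : 0 < H * L := by positivity
      have hQ1 : 1 ≤ (H * L) * X := by
        have : 1 ≤ H * L := by nlinarith
        nlinarith
      rw [hQ, max_eq_right hQ1] at h4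
      have h6 : 6 * lam ≤ X := by
        rw [hlam, mul_div_assoc', div_le_iff₀ (by positivity)]
        nlinarith
      have h7 : W k t H ≤ G ^ (k / j) * (H * L) ^ s * L ^ (j * k) := by
        calc W k t H ≤ 6 * lam * ((H * L) * X) ^ s := h4
          _ ≤ X * ((H * L) * X) ^ s := by gcongr
          _ = (H * L) ^ s * X ^ (s + 1) := by
              rw [Real.mul_rpow hY.le (by linarith), Real.rpow_add (by linarith), Real.rpow_one]
              ring
          _ = G ^ (k / j) * (H * L) ^ s * L ^ (j * k) := by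
              rw [hs1, hX, Real.mul_rpow hG.le (by positivity), ← Real.rpow_mul hLp.le]
              have e : j ^ 2 * (k / j) = j * k := by field_simp
              rw [e]
              ring
      refine ⟨h7, ?_⟩
      intro hlt hle
      refine h7.trans ?_
      have hkj : 0 < k - j := by linarith
      have h8 := Real.rpow_le_rpow (by positivity) hle hs0
      rw [Real.mul_rpow (by positivity) hY.le, ← Real.rpow_mul hG.le, ← Real.rpow_mul hLp.le] at h8
      have e1 : k / (k - j) * s = k / j := by rw [hs]; field_simp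
      have e2 : j * k * s = k * (k - j) := by rw [hs]; field_simp
      rw [e1, e2] at h8
      calc G ^ (k / j) * (H * L) ^ s * L ^ (j * k) ≤ L ^ (k * (k - j)) * L ^ (j * k) := by gcongr
        _ = L ^ (k ^ 2) := by
            rw [← Real.rpow_add hLp]
            congr 1
            ring

lemma part3 {T G : ℝ} (hT : 1000 ≤ T) (hG : 0 < G) :
    AllBut T (4700 * T / G) (fun t => ∀ H k : ℝ, 1 ≤ H → H ≤ T → 2 ≤ k →
      W k t H ≤ G ^ (k / 2) * (H * Real.log T) ^ ((k - 2) / 2) * Real.log T ^ (2 * k) ∧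
      (2 < k → G ^ (k / (k - 2)) * (H * Real.log T) ≤ Real.log T ^ (2 * k) →
        W k t H ≤ Real.log T ^ (k ^ 2))) := by
  have hL0 : 69 / 10 ≤ Real.log T := log_ge hT
  have hT0 : 0 < T := by linarith
  have hM : M 2 (3 * T) ≤ 4.351 * T * Real.log T ^ ((2:ℝ) ^ 2) := by
    have h1 := fourth (3 * T) (by linarith)
    have e1 : (2:ℝ) * 2 = 4 := by norm_num
    have e2 : (2:ℝ) ^ 2 = 4 := by norm_num
    unfold M
    rw [e1, e2]
    have h3 : Real.log 3 ≤ 1.1 := by
      rw [Real.log_le_iff_le_exp (by norm_num)]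
      have e : Real.exp 1.1 = (Real.exp 1 ^ 11) ^ (1 / 10 : ℝ) := by
        rw [← Real.exp_nat_mul, ← Real.exp_mul]
        norm_num
      rw [e]
      have h5 : (3:ℝ) ^ (10:ℝ) ≤ Real.exp 1 ^ 11 := by
        have h6 : (2.7182818283:ℝ) ^ 11 ≤ Real.exp 1 ^ 11 := by
          have := Real.exp_one_gt_d9
          gcongr
        refine le_trans ?_ h6
        norm_num
      calc (3:ℝ) = ((3:ℝ) ^ (10:ℝ)) ^ (1 / 10 : ℝ) := by
            rw [← Real.rpow_mul (by norm_num)]; norm_num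
        _ ≤ _ := by gcongr
    have h4 : Real.log (3 * T) ≤ 1.16 * Real.log T := by
      rw [Real.log_mul (by norm_num) hT0.ne']
      linarith
    have h5 : Real.log (3 * T) ^ (4:ℝ) ≤ (1.16 * Real.log T) ^ (4:ℝ) := by
      apply Real.rpow_le_rpow _ h4 (by norm_num)
      exact Real.log_nonneg (by linarith)
    have h6 : (1.16 * Real.log T) ^ (4:ℝ) = 1.16 ^ (4:ℝ) * Real.log T ^ (4:ℝ) :=
      Real.mul_rpow (by norm_num) (by linarith)
    have h7 : (1.16:ℝ) ^ (4:ℝ) ≤ 1.811 := by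
      have : (1.16:ℝ) ^ (4:ℝ) = 1.16 ^ 4 := by norm_cast
      rw [this]; norm_num
    have h8 : 0 ≤ Real.log T ^ (4:ℝ) := Real.rpow_nonneg (by linarith) _
    calc ∫ t in (0:ℝ)..(3 * T), Z t ^ (4:ℝ) ≤ 4 / 5 * (3 * T * Real.log (3 * T) ^ (4:ℝ)) := h1
      _ ≤ 4 / 5 * (3 * T * (1.811 * Real.log T ^ (4:ℝ))) := by
          gcongr
          rw [h6] at h5
          exact h5.trans (by gcongr)
      _ ≤ 4.351 * T * Real.log T ^ (4:ℝ) := by
          nlinarith [mul_nonneg hT0.le h8]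
  obtain ⟨E, h1, h2, h3⟩ := part2 hT (by norm_num) (by norm_num) hG hM
  refine ⟨E, h1, h2.trans ?_, h3⟩
  apply ENNReal.ofReal_le_ofReal
  rw [div_le_div_iff_of_pos_right hG]
  nlinarith

/-- **The inequality of Q2 in almost all short windows.** -/
theorem result :
    (∀ T G : ℝ, 1000 ≤ T → 0 < G →
      AllBut T (4700 * T / G) (fun t => ∀ H k : ℝ, 1 ≤ H → H ≤ T → 2 ≤ k →
        W k t H ≤ G ^ (k / 2) * (H * Real.log T) ^ ((k - 2) / 2) * Real.log T ^ (2 * k) ∧
        (2 < k → G ^ (k / (k - 2)) * (H * Real.log T) ≤ Real.log T ^ (2 * k) →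
          W k t H ≤ Real.log T ^ (k ^ 2)))) ∧
    (∀ T ε : ℝ, 1000 ≤ T → 0 < ε →
      AllBut T (4700 * T * Real.log T ^ (-ε ^ 2)) (fun t => ∀ H k : ℝ, 1 ≤ H → H ≤ T → 2 + ε ≤ k →
        H ≤ Real.log T ^ ((2 - ε) * k - 1) → W k t H ≤ Real.log T ^ (k ^ 2))) ∧
    (∀ T j A G : ℝ, 1000 ≤ T → 1 / 2 ≤ j → 1 ≤ A → 0 < G →
      M j (3 * T) ≤ A * T * Real.log T ^ (j ^ 2) →
      AllBut T (216 * (2 * j + 1) * A * T / G) (fun t => ∀ H k : ℝ, 1 ≤ H → H ≤ T → j ≤ k →
        W k t H ≤ G ^ (k / j) * (H * Real.log T) ^ ((k - j) / j) * Real.log T ^ (j * k) ∧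
        (j < k → G ^ (k / (k - j)) * (H * Real.log T) ≤ Real.log T ^ (j * k) →
          W k t H ≤ Real.log T ^ (k ^ 2)))) := by
  refine ⟨fun T G hT hG => part3 hT hG, ?_, fun T j A G hT hj hA hG hM => part2 hT hj hA hG hM⟩
  intro T ε hT hε
  have hL0 : 69 / 10 ≤ Real.log T := log_ge hT
  set L := Real.log T with hL
  have hLp : 0 < L := by linarith
  have hG : 0 < L ^ (ε ^ 2) := Real.rpow_pos_of_pos hLp _
  obtain ⟨E, h1, h2, h3⟩ := part3 hT hG
  refine ⟨E, h1, h2.trans ?_, ?_⟩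
  · apply ENNReal.ofReal_le_ofReal
    rw [Real.rpow_neg hLp.le, div_eq_mul_inv]
  · intro t ht htE H k hH1 hHT hk hH
    refine (h3 t ht htE H k hH1 hHT (by linarith)).2 (by linarith) ?_
    have hk2 : 0 < k - 2 := by linarith
    have e1 : (L ^ (ε ^ 2)) ^ (k / (k - 2)) ≤ L ^ (ε * k) := by
      rw [← Real.rpow_mul hLp.le]
      apply Real.rpow_le_rpow_of_exponent_le (by linarith)
      rw [mul_div_assoc', div_le_iff₀ hk2]
      have : 0 ≤ ε * k * (k - 2 - ε) := mul_nonneg (mul_nonneg hε.le (by linarith)) (by linarith)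
      nlinarith
    have e2 : H * L ≤ L ^ ((2 - ε) * k) := by
      calc H * L ≤ L ^ ((2 - ε) * k - 1) * L := by gcongr
        _ = L ^ ((2 - ε) * k) := by
            rw [Real.rpow_sub_one hLp.ne']
            field_simp
    calc (L ^ (ε ^ 2)) ^ (k / (k - 2)) * (H * L) ≤ L ^ (ε * k) * L ^ ((2 - ε) * k) := by gcongr
      _ = L ^ (2 * k) := by
          rw [← Real.rpow_add hLp]
          congr 1
          ring

end Pool.Agent.Results.MP_3d0d30_nt.WindowsOfAllOrders
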